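import Mathlib

namespace Pool.Agent.Results.MP_bbc03c_al.Alt

/-- the center: elements of the nucleus commuting with everything -/
def Cen (R : Type) [NonAssocRing R] : Set R :=
  {x | (∀ a b : R, (x * a) * b = x * (a * b) ∧ (a * x) * b = a * (x * b) ∧
    (a * b) * x = a * (b * x)) ∧ ∀ a : R, x * a = a * x}

@[ext] structure T where
  (e x y p t w : ℤ)

instance : Zero T := ⟨⟨0, 0, 0, 0, 0, 0⟩⟩
instance : One T := ⟨⟨1, 0, 0, 0, 0, 0⟩⟩
instance : Add T := ⟨fun a b => ⟨a.e + b.e, a.x + b.x, a.y + b.y, a.p + b.p, a.t + b.t, a.w + b.w⟩⟩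
instance : Neg T := ⟨fun a => ⟨-a.e, -a.x, -a.y, -a.p, -a.t, -a.w⟩⟩
instance : Mul T := ⟨fun a b => ⟨a.e * b.e, a.e * b.x + a.x * b.e, a.e * b.y + a.y * b.e,
  a.e * b.p + a.p * b.e + a.x * b.y, a.e * b.t + a.t * b.e,
  a.e * b.w + a.w * b.e + a.x * b.p + a.p * b.x + a.t * b.y + a.y * b.t⟩⟩

lemma zd : (0 : T) = ⟨0, 0, 0, 0, 0, 0⟩ := rfl
lemma od : (1 : T) = ⟨1, 0, 0, 0, 0, 0⟩ := rfl
lemma ad (a b : T) :
  a + b = ⟨a.e + b.e, a.x + b.x, a.y + b.y, a.p + b.p, a.t + b.t, a.w + b.w⟩ := rfl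
lemma nd (a : T) : -a = ⟨-a.e, -a.x, -a.y, -a.p, -a.t, -a.w⟩ := rfl
lemma md (a b : T) : a * b = ⟨a.e * b.e, a.e * b.x + a.x * b.e, a.e * b.y + a.y * b.e,
  a.e * b.p + a.p * b.e + a.x * b.y, a.e * b.t + a.t * b.e,
  a.e * b.w + a.w * b.e + a.x * b.p + a.p * b.x + a.t * b.y + a.y * b.t⟩ := rfl

instance : AddCommGroup T where
  add_assoc a b c := by ext <;> simp only [ad] <;> ring
  zero_add a := by ext <;> simp [ad, zd]
  add_zero a := by ext <;> simp [ad, zd]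
  add_comm a b := by ext <;> simp only [ad] <;> ring
  neg_add_cancel a := by ext <;> simp [ad, zd, nd]
  nsmul := nsmulRec
  zsmul := zsmulRec

instance : NonAssocRing T where
  left_distrib a b c := by ext <;> simp only [ad, md] <;> ring
  right_distrib a b c := by ext <;> simp only [ad, md] <;> ring
  zero_mul a := by ext <;> simp [md, zd]
  mul_zero a := by ext <;> simp [md, zd]
  one_mul a := by ext <;> simp [md, od]
  mul_one a := by ext <;> simp [md, od]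

lemma mem (a : T) (hx : a.x = 0) (hy : a.y = 0) : a ∈ Cen T := by
  refine ⟨fun b c => ⟨?_, ?_, ?_⟩, fun b => ?_⟩ <;> ext <;> simp only [md, hx, hy] <;> ring

theorem result : ∃ (R : Type) (_ : NonAssocRing R),
    (∀ a b : R, (a * b) * b = a * (b * b)) ∧
    (∃ a b : R, (a * a) * b ≠ a * (a * b)) ∧
    (∀ r : R, r ≠ 0 → ∃ x ∈ Cen R, x * r ∈ Cen R ∧ x * r ≠ 0) := by
  refine ⟨T, inferInstance, ?_, ⟨⟨0, 1, 0, 0, 0, 0⟩, ⟨0, 0, 1, 0, 0, 0⟩, by simp [md]⟩, ?_⟩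
  · intro a b
    ext <;> simp only [md] <;> ring
  · intro r hr
    by_cases he : r.e = 0
    · by_cases hx : r.x = 0
      · by_cases hy : r.y = 0
        · exact ⟨1, mem _ rfl rfl, by rw [one_mul]; exact mem _ hx hy, by rwa [one_mul]⟩
        · exact ⟨⟨0, 0, 0, 0, 1, 0⟩, mem _ rfl rfl, mem _ (by simp [md]) (by simp [md]),
            by simp [md, zd, hy]⟩
      · exact ⟨⟨0, 0, 0, 1, 0, 0⟩, mem _ rfl rfl, mem _ (by simp [md]) (by simp [md]),
          by simp [md, zd, hx]⟩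
    · exact ⟨⟨0, 0, 0, 0, 0, 1⟩, mem _ rfl rfl, mem _ (by simp [md]) (by simp [md]),
        by simp [md, zd, he]⟩

end Pool.Agent.Results.MP_bbc03c_al.Alt
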